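import Pool.Agent.X249.RB.Red

/-!
# Red-blue cuts in directed graphs: correctness of the reduction
-/

set_option autoImplicit false

namespace Pool.Agent.X249.RB

open Pool.Agent.NPC Pool.Agent.NPC.H634R2

theorem mem_bases {I : CInst} {x : Bs} : x ∈ bases I ↔ x = bs ∨ x = bt ∨ (∃ v ∈ I.1.1, bv v = x) ∨
    ∃ e ∈ I.1.2, be e = x := by
  simp only [bases, List.mem_cons, List.mem_append, List.mem_map]

theorem mem_copies {I : CInst} {i : ℕ} : i ∈ copies I ↔ i < I.1.1.length + 4 := List.mem_range

theorem mem_svs {I : CInst} {x : SV} : x ∈ svs I ↔ x.1 ∈ bases I ∧ x.2 < I.1.1.length + 4 := by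
  rw [svs, List.mem_product, mem_copies]

theorem mem_reds {I : CInst} {p : SV × SV} :
    p ∈ reds I ↔ (p.1 ∈ svs I ∧ p.2 ∈ svs I) ∧ redP p := by
  rw [reds, List.mem_filter, List.mem_product, decide_eq_true_iff]

theorem mem_blues {I : CInst} {p : SV × SV} :
    p ∈ blues I ↔ (p.1 ∈ svs I ∧ p.2 ∈ svs I) ∧ blueP (kk I) p := by
  rw [blues, List.mem_filter, List.mem_product, decide_eq_true_iff]

theorem kk_le (I : CInst) : kk I ≤ I.1.1.length + 2 := Nat.min_le_right _ _

theorem edges_nodup {V : List ℕ} {E : List (ℕ × ℕ)} (h : IsGraph V E) : E.Nodup :=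
  List.Nodup.of_map _ h.2.2

theorem bases_nodup {I : CInst} (h : IsGraph I.1.1 I.1.2) : (bases I).Nodup := by
  unfold bases
  rw [List.nodup_cons, List.nodup_cons]
  refine ⟨?_, ?_, ?_⟩
  · simp [bs, bt, bv, be]
  · simp [bt, bv, be]
  · refine List.Nodup.append ?_ ?_ ?_
    · exact h.1.map (fun a b hab => by simpa [bv] using hab)
    · exact (edges_nodup h).map (fun a b hab => by simpa [be] using hab)
    · intro x hx hy
      obtain ⟨v, -, rfl⟩ := List.mem_map.1 hx
      obtain ⟨e, -, he⟩ := List.mem_map.1 hy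
      simp [bv, be] at he

theorem svs_nodup {I : CInst} (h : IsGraph I.1.1 I.1.2) : (svs I).Nodup :=
  (bases_nodup h).product (List.nodup_range)

theorem reds_nodup {I : CInst} (h : IsGraph I.1.1 I.1.2) : (reds I).Nodup :=
  ((svs_nodup h).product (svs_nodup h)).filter _

theorem blues_nodup {I : CInst} (h : IsGraph I.1.1 I.1.2) : (blues I).Nodup :=
  ((svs_nodup h).product (svs_nodup h)).filter _

theorem blueP_ne {k : ℕ} {p : SV × SV} (h : blueP k p) : p.1.1.1 = 0 ∧ (p.2.1.1 = 1 ∨ p.2.1.1 = 3) := by
  rcases h with h | h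
  · exact ⟨h.2.2.1, Or.inr h.2.2.2⟩
  · exact ⟨h.1, Or.inl h.2.1⟩

theorem redP_not {p : SV × SV} (h : redP p) : ¬ (p.1.1.1 = 0 ∧ (p.2.1.1 = 1 ∨ p.2.1.1 = 3)) := by
  rintro ⟨h0, h1⟩
  rcases h with ⟨h | h | h | h, -⟩ | h
  · rw [h] at h0
    omega
  · omega
  · omega
  · omega
  · omega

theorem arcs_nodup {I : CInst} (h : IsGraph I.1.1 I.1.2) : (arcs I).Nodup := by
  unfold arcs
  refine List.Nodup.append ?_ ?_ ?_
  · exact (reds_nodup h).map (fun a b hab => by simpa using hab)
  · exact (blues_nodup h).map (fun a b hab => by simpa using hab)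
  · intro x hx hy
    obtain ⟨v, -, rfl⟩ := List.mem_map.1 hx
    obtain ⟨e, -, he⟩ := List.mem_map.1 hy
    simp at he

theorem arcs_par {I : CInst} : ∀ a ∈ arcs I, ∀ a' ∈ arcs I, a.1 = a'.1 → a = a' := by
  intro a ha a' ha' h
  rw [arcs, List.mem_append, List.mem_map, List.mem_map] at ha ha'
  rcases ha with ⟨p, hp, rfl⟩ | ⟨p, hp, rfl⟩ <;> rcases ha' with ⟨q, hq, rfl⟩ | ⟨q, hq, rfl⟩
  · simp only at h; rw [h]
  · simp only at h
    subst h
    exact absurd (blueP_ne (mem_blues.1 hq).2) (redP_not (mem_reds.1 hp).2)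
  · simp only at h
    subst h
    exact absurd (blueP_ne (mem_blues.1 hp).2) (redP_not (mem_reds.1 hq).2)
  · simp only at h; rw [h]

theorem arcs_mem {I : CInst} : ∀ a ∈ arcs I, a.1.1 ∈ svs I ∧ a.1.2 ∈ svs I ∧ a.1.1 ≠ a.1.2 := by
  intro a ha
  rw [arcs, List.mem_append, List.mem_map, List.mem_map] at ha
  rcases ha with ⟨p, hp, rfl⟩ | ⟨p, hp, rfl⟩
  · rw [mem_reds] at hp
    refine ⟨hp.1.1, hp.1.2, ?_⟩
    rcases hp.2 with h | h
    · exact h.2
    · intro he
      simp only at he
      rw [he] at h
      omega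
  · rw [mem_blues] at hp
    refine ⟨hp.1.1, hp.1.2, ?_⟩
    intro he
    simp only at he
    have := blueP_ne hp.2
    rw [he] at this
    omega

/-- The pairs `i < j < n`. -/
def prs (n : ℕ) : List (ℕ × ℕ) := (List.range n).flatMap (fun j => (List.range j).map (fun i => (i, j)))

theorem mem_prs {n : ℕ} {p : ℕ × ℕ} : p ∈ prs n ↔ p.1 < p.2 ∧ p.2 < n := by
  simp only [prs, List.mem_flatMap, List.mem_range, List.mem_map]
  constructor
  · rintro ⟨j, hj, i, hi, rfl⟩
    exact ⟨hi, hj⟩
  · rintro ⟨h1, h2⟩
    exact ⟨p.2, h2, p.1, h1, rfl⟩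

theorem prs_nodup (n : ℕ) : (prs n).Nodup := by
  induction n with
  | zero => simp [prs]
  | succ n ih =>
    unfold prs at ih ⊢
    rw [List.range_succ, List.flatMap_append, List.flatMap_singleton]
    refine List.Nodup.append ih ?_ ?_
    · exact List.nodup_range.map (fun a b hab => by simpa using hab)
    · intro x hx hy
      obtain ⟨i, hi, rfl⟩ := List.mem_map.1 hy
      have := (mem_prs (n := n) (p := (i, n))).1 hx
      simp at this

theorem prs_length (n : ℕ) : (prs n).length = n.choose 2 := by
  induction n with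
  | zero => simp [prs]
  | succ n ih =>
    unfold prs at ih ⊢
    have h1 : (n + 1).choose 2 = n.choose 1 + n.choose 2 := Nat.choose_succ_succ' n 1
    rw [List.range_succ, List.flatMap_append, List.flatMap_singleton, List.length_append, ih,
      List.length_map, List.length_range, h1, Nat.choose_one_right]
    omega

theorem count_arcs (I : CInst) (g : SV → Bool) :
    (arcs I).countP (fun a => g a.1.1 && (!g a.1.2 && a.2)) =
      (reds I).countP (fun p => g p.1 && !g p.2) ∧
    (arcs I).countP (fun a => g a.1.1 && (!g a.1.2 && !a.2)) =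
      (blues I).countP (fun p => g p.1 && !g p.2) := by
  unfold arcs
  rw [List.countP_append, List.countP_map, List.countP_map, List.countP_append, List.countP_map,
    List.countP_map]
  constructor
  · rw [List.countP_congr (q := fun p => g p.1 && !g p.2) (l := reds I) (by intro a _; simp),
      List.countP_congr (q := fun _ => false) (l := blues I) (by intro a _; simp)]
    simp
  · rw [List.countP_congr (q := fun _ => false) (l := reds I) (by intro a _; simp),
      List.countP_congr (q := fun p => g p.1 && !g p.2) (l := blues I) (by intro a _; simp)]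
    simp

/-- Nothing heavy is cut. -/
theorem no_heavy {I : CInst} (g : SV → Bool)
    (hr : (reds I).countP (fun p => g p.1 && !g p.2) ≤ kk I) {x y : SV}
    (hx : x ∈ svs I) (hy : y ∈ svs I) (hxy : heavy x.1 y.1) (hgx : g x = true) (hgy : g y = false) :
    False := by
  have hL := le_countP (A := reds I) (p := fun p => g p.1 && !g p.2)
    (L := ((copies I).filter (fun c => decide (c ≠ y.2))).map (fun c =>
      if g (y.1, c) = true then ((y.1, c), y) else (x, (y.1, c)))) ?_ ?_
  · rw [List.length_map] at hL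
    have h2 : (copies I).length ≤ ((copies I).filter (fun c => decide (c ≠ y.2))).length + 1 := by
      have h3 : (copies I).filter (fun c => decide (c ≠ y.2)) = (copies I).erase y.2 := by
        unfold copies
        rw [List.Nodup.erase_eq_filter List.nodup_range]
        congr 1
        funext c
        by_cases hc : c = y.2 <;> simp [hc]
      rw [h3]
      have h5 : ((copies I).erase y.2).length = (copies I).length - 1 ∨
          ((copies I).erase y.2).length = (copies I).length := by
        by_cases hm : y.2 ∈ copies I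
        · exact Or.inl (List.length_erase_of_mem hm)
        · right; rw [List.erase_of_not_mem hm]
      omega
    have h4 : (copies I).length = I.1.1.length + 4 := by simp [copies]
    have h6 := kk_le I
    have h7 := hL.trans hr
    omega
  · refine (List.nodup_range.filter _).map_on ?_
    intro c hc c' hc' h
    rw [List.mem_filter, decide_eq_true_iff] at hc hc'
    by_cases h1 : g (y.1, c) = true <;> by_cases h2 : g (y.1, c') = true
    · simp only [h1, h2, if_true, Prod.mk.injEq] at h
      exact h.1.2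
    · simp only [h1, h2, if_true] at h
      have h3 : y = (y.1, c') := (Prod.mk.inj h).2
      exact absurd (congrArg Prod.snd h3).symm hc'.2
    · simp only [h1, h2, if_true] at h
      have h3 : (y.1, c) = y := (Prod.mk.inj h).2
      exact absurd (congrArg Prod.snd h3) hc.2
    · simp only [h1, h2] at h
      have h3 : ((y.1, c) : SV) = (y.1, c') := (Prod.mk.inj h).2
      exact congrArg Prod.snd h3
  · intro p hp
    obtain ⟨c, hc, rfl⟩ := List.mem_map.1 hp
    rw [List.mem_filter, decide_eq_true_iff] at hc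
    have hyc : ((y.1, c) : SV) ∈ svs I := mem_svs.2 ⟨(mem_svs.1 hy).1, mem_copies.1 hc.1⟩
    by_cases h1 : g (y.1, c) = true
    · rw [if_pos h1, mem_reds]
      refine ⟨⟨⟨hyc, hy⟩, Or.inl ⟨Or.inl rfl, ?_⟩⟩, ?_⟩
      · intro h
        exact hc.2 (congrArg Prod.snd h)
      · simp [h1, hgy]
    · rw [if_neg h1, mem_reds]
      refine ⟨⟨⟨hx, hyc⟩, Or.inl ⟨hxy, ?_⟩⟩, ?_⟩
      · intro h
        rw [← show x = (y.1, c) from h] at h1
        exact h1 hgx
      · simp only [Bool.not_eq_true] at h1
        simp [h1, hgx]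

theorem corr {I : CInst} (h : IsGraph I.1.1 I.1.2) (hk : 2 ≤ I.2) :
    CLIQUE I ↔ RedBlueCut (red I) := by
  have hk' : 2 ≤ kk I := by unfold kk; omega
  have h1 : HasClique I.1.1 I.1.2 I.2 ↔ HasClique I.1.1 I.1.2 (kk I) := by
    unfold kk
    rcases Nat.le_total I.2 (I.1.1.length + 2) with hle | hle
    · rw [Nat.min_eq_left hle]
    · rw [Nat.min_eq_right hle]
      have key : ∀ m, I.1.1.length + 2 ≤ m → ¬ HasClique I.1.1 I.1.2 m := by
        rintro m hm ⟨K, hKV, hKc, -⟩
        have : K.card ≤ I.1.1.length := by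
          refine le_trans (Finset.card_le_card (t := I.1.1.toFinset) ?_) (List.toFinset_card_le _)
          intro v hv
          exact List.mem_toFinset.2 (hKV v hv)
        omega
      exact ⟨fun hh => absurd hh (key _ hle), fun hh => absurd hh (key _ le_rfl)⟩
  have h2 := (redBlueCut_relabel (svs I) (arcs I) (kk I) I.1.2.length (index (svs I))
    (svs_nodup h) (fun x hx y hy hxy => index_inj hx hy hxy) arcs_mem (arcs_nodup h) arcs_par).2
  rw [CLIQUE, and_iff_right h, h1, hasClique_iff h hk']
  refine Iff.trans ?_ h2.symm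
  have hbs : ∀ i, i < I.1.1.length + 4 → ((bs, i) : SV) ∈ svs I := fun i hi =>
    mem_svs.2 ⟨mem_bases.2 (Or.inl rfl), hi⟩
  have hbt : ∀ i, i < I.1.1.length + 4 → ((bt, i) : SV) ∈ svs I := fun i hi =>
    mem_svs.2 ⟨mem_bases.2 (Or.inr (Or.inl rfl)), hi⟩
  have hbv : ∀ i, i < I.1.1.length + 4 → ∀ v ∈ I.1.1, ((bv v, i) : SV) ∈ svs I := fun i hi v hv =>
    mem_svs.2 ⟨mem_bases.2 (Or.inr (Or.inr (Or.inl ⟨v, hv, rfl⟩))), hi⟩
  have hbe : ∀ i, i < I.1.1.length + 4 → ∀ e ∈ I.1.2, ((be e, i) : SV) ∈ svs I := fun i hi e he =>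
    mem_svs.2 ⟨mem_bases.2 (Or.inr (Or.inr (Or.inr ⟨e, he, rfl⟩))), hi⟩
  have hkk := kk_le I
  constructor
  · rintro ⟨U, hUV, hUc, hUi⟩
    obtain ⟨g, hg⟩ : ∃ g : SV → Bool, ∀ x, g x = true ↔ (x.1.1 = 0 ∨ (x.1.1 = 2 ∧ x.1.2.1 ∈ U) ∨
      (x.1.1 = 3 ∧ x.1.2.1 ∈ U ∧ x.1.2.2 ∈ U)) := 
        ⟨fun x => decide (x.1.1 = 0 ∨ (x.1.1 = 2 ∧ x.1.2.1 ∈ U) ∨
          (x.1.1 = 3 ∧ x.1.2.1 ∈ U ∧ x.1.2.2 ∈ U)), fun x => by simp⟩
    have hg' : ∀ x, g x = false ↔ ¬ (x.1.1 = 0 ∨ (x.1.1 = 2 ∧ x.1.2.1 ∈ U) ∨
      (x.1.1 = 3 ∧ x.1.2.1 ∈ U ∧ x.1.2.2 ∈ U)) := fun x => by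
        rw [← hg, Bool.not_eq_true]
    refine ⟨g, ⟨(bs, 0), hbs 0 (by omega), by rw [hg]; simp [bs]⟩,
      ⟨(bt, 0), hbt 0 (by omega), by rw [hg']; simp [bt]⟩, ?_, ?_⟩
    · rw [(count_arcs I _).1]
      refine (countP_le (L := U.toList.map (fun v => ((bv v, 0), (bt, 0)))) (reds_nodup h) ?_).trans ?_
      · intro p hp hpg
        rw [mem_reds] at hp
        simp only [Bool.and_eq_true, Bool.not_eq_true', hg, hg'] at hpg
        obtain ⟨hg1, hg2⟩ := hpg
        obtain ⟨⟨hp1, hp2⟩, hP⟩ := hp
        rw [mem_svs, mem_bases] at hp1 hp2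
        rcases hP with ⟨hH, -⟩ | ⟨hi1, hi2, hk1, hk2⟩
        · exfalso
          rcases hH with hH | hH | hH | hH
          · rw [hH] at hg1; exact hg2 hg1
          · exact hg2 (Or.inl hH)
          · omega
          · obtain ⟨hH1, hH2, hH3⟩ := hH
            rcases hg1 with hg1 | hg1 | hg1
            · omega
            · omega
            · refine hg2 (Or.inr (Or.inl ⟨hH2, ?_⟩))
              rcases hH3 with hH3 | hH3
              · rw [hH3]; exact hg1.2.1
              · rw [hH3]; exact hg1.2.2
        · obtain ⟨⟨x, i⟩, ⟨y, j⟩⟩ := p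
          simp only at *
          subst hi1 hi2
          rcases hp1.1 with rfl | rfl | ⟨v, hv, rfl⟩ | ⟨e, he, rfl⟩
          · simp [bs] at hk1
          · simp [bt] at hk1
          · rcases hp2.1 with rfl | rfl | ⟨v', hv', rfl⟩ | ⟨e, he, rfl⟩
            · simp [bs] at hk2
            · refine List.mem_map.2 ⟨v, ?_, rfl⟩
              rw [Finset.mem_toList]
              simpa [bv] using hg1
            · simp [bv] at hk2
            · simp [be] at hk2
          · simp [be] at hk1
      · rw [List.length_map, Finset.length_toList]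
        exact hUc
    · rw [(count_arcs I _).2]
      refine (countP_le (L := (I.1.2.filter (fun e => !(decide (e.1 ∈ U) && decide (e.2 ∈ U)))).map
        (fun e => ((bs, 0), (be e, 0))) ++ (prs (kk I)).map (fun q => ((bs, q.1), (bt, q.2))))
        (blues_nodup h) ?_).trans ?_
      · intro p hp hpg
        rw [mem_blues] at hp
        simp only [Bool.and_eq_true, Bool.not_eq_true', hg, hg'] at hpg
        obtain ⟨hg1, hg2⟩ := hpg
        obtain ⟨⟨hp1, hp2⟩, hP⟩ := hp
        rw [mem_svs, mem_bases] at hp1 hp2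
        obtain ⟨⟨x, i⟩, ⟨y, j⟩⟩ := p
        simp only at *
        rw [List.mem_append]
        rcases hP with ⟨hi1, hi2, hk1, hk2⟩ | ⟨hk1, hk2, hi1, hi2⟩
        · left
          simp only at hi1 hi2 hk1 hk2
          subst hi1 hi2
          rcases hp1.1 with rfl | rfl | ⟨v, hv, rfl⟩ | ⟨e, he, rfl⟩
          · rcases hp2.1 with rfl | rfl | ⟨v', hv', rfl⟩ | ⟨e, he, rfl⟩
            · simp [bs] at hk2
            · simp [bt] at hk2
            · simp [bv] at hk2
            · refine List.mem_map.2 ⟨e, List.mem_filter.2 ⟨he, ?_⟩, rfl⟩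
              have h9 : ¬ (e.1 ∈ U ∧ e.2 ∈ U) := fun h9 => hg2 (Or.inr (Or.inr ⟨rfl, h9⟩))
              simpa [← Classical.not_and_iff_not_or_not] using h9
          · simp [bt] at hk1
          · simp [bv] at hk1
          · simp [be] at hk1
        · right
          simp only at hi1 hi2 hk1 hk2
          rcases hp1.1 with rfl | rfl | ⟨v, hv, rfl⟩ | ⟨e, he, rfl⟩
          · rcases hp2.1 with rfl | rfl | ⟨v', hv', rfl⟩ | ⟨e, he, rfl⟩
            · simp [bs] at hk2
            · exact List.mem_map.2 ⟨(i, j), mem_prs.2 ⟨hi1, hi2⟩, rfl⟩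
            · simp [bv] at hk2
            · simp [be] at hk2
          · simp [bt] at hk1
          · simp [bv] at hk1
          · simp [be] at hk1
      · rw [List.length_append, List.length_map, List.length_map, prs_length,
          ← List.countP_eq_length_filter]
        have h3 := List.length_eq_countP_add_countP (l := I.1.2)
          (p := fun e => decide (e.1 ∈ U) && decide (e.2 ∈ U))
        have h4 : inside I.1.2 U = I.1.2.countP (fun e => decide (e.1 ∈ U) && decide (e.2 ∈ U)) := rfl
        have h5 : I.1.2.countP (fun e => !(decide (e.1 ∈ U) && decide (e.2 ∈ U))) =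
          I.1.2.countP (fun a => decide ¬((decide (a.1 ∈ U) && decide (a.2 ∈ U)) = true)) := by
          apply List.countP_congr
          intro a _
          simp
        omega
  · rintro ⟨g, ⟨x, hx, hgx⟩, ⟨y, hy, hgy⟩, hr, hb⟩
    rw [(count_arcs I g).1] at hr
    rw [(count_arcs I g).2] at hb
    have hgs : ∀ i, i < I.1.1.length + 4 → g (bs, i) = true := by
      intro i hi
      by_contra hc
      exact no_heavy g hr hx (hbs i hi) (Or.inr (Or.inl rfl)) hgx (by simpa using hc)
    have hgt : ∀ i, i < I.1.1.length + 4 → g (bt, i) = false := by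
      intro i hi
      by_contra hc
      exact no_heavy g hr (hbt i hi) hy (Or.inr (Or.inr (Or.inl rfl))) (by simpa using hc) hgy
    refine ⟨(I.1.1.filter (fun v => g (bv v, 0))).toFinset, ?_, ?_, ?_⟩
    · intro v hv
      rw [List.mem_toFinset, List.mem_filter] at hv
      exact hv.1
    · refine (List.toFinset_card_le _).trans (le_trans ?_ hr)
      have hL := le_countP (A := reds I) (p := fun p => g p.1 && !g p.2)
        (L := (I.1.1.filter (fun v => g (bv v, 0))).map (fun v => ((bv v, 0), (bt, 0)))) ?_ ?_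
      · rwa [List.length_map] at hL
      · exact (h.1.filter _).map (fun a b hab => by simpa [bv] using hab)
      · intro p hp
        obtain ⟨v, hv, rfl⟩ := List.mem_map.1 hp
        rw [List.mem_filter] at hv
        refine ⟨mem_reds.2 ⟨⟨hbv 0 (by omega) v hv.1, hbt 0 (by omega)⟩, Or.inr ?_⟩, ?_⟩
        · simp [bv, bt]
        · simp [hv.2, hgt 0 (by omega)]
    · have hL := le_countP (A := blues I) (p := fun p => g p.1 && !g p.2)
        (L := (I.1.2.filter (fun e => !g (be e, 0))).map (fun e => ((bs, 0), (be e, 0))) ++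
          (prs (kk I)).map (fun q => ((bs, q.1), (bt, q.2)))) ?_ ?_
      · rw [List.length_append, List.length_map, List.length_map, prs_length,
          ← List.countP_eq_length_filter] at hL
        have h3 := List.length_eq_countP_add_countP (l := I.1.2) (p := fun e => g (be e, 0))
        have h5 : I.1.2.countP (fun e => !g (be e, 0)) =
          I.1.2.countP (fun a => decide ¬(g (be a, 0) = true)) := by
          apply List.countP_congr
          intro a _
          simp
        have h6 : I.1.2.countP (fun e => g (be e, 0)) ≤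
            inside I.1.2 (I.1.1.filter (fun v => g (bv v, 0))).toFinset := by
          refine List.countP_mono_left ?_
          intro e he hge
          have key : ∀ v ∈ I.1.1, (v = e.1 ∨ v = e.2) → g (bv v, 0) = true := by
            intro v hv hve
            by_contra hc
            refine no_heavy g hr (hbe 0 (by omega) e he) (hbv 0 (by omega) v hv)
              (Or.inr (Or.inr (Or.inr ⟨rfl, rfl, ?_⟩))) hge (by simpa using hc)
            exact hve
          have he' := h.2.1 e he
          simp only [List.mem_toFinset, List.mem_filter, Bool.and_eq_true, decide_eq_true_eq]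
          exact ⟨⟨he'.1, key _ he'.1 (Or.inl rfl)⟩, ⟨he'.2.1, key _ he'.2.1 (Or.inr rfl)⟩⟩
        omega
      · refine List.Nodup.append ?_ ?_ ?_
        · exact ((edges_nodup h).filter _).map (fun a b hab => by simpa [be] using hab)
        · exact (prs_nodup _).map (fun a b hab => by
            simp only [Prod.mk.injEq] at hab
            exact Prod.ext hab.1.2 hab.2.2)
        · intro x hx hy
          obtain ⟨e, -, rfl⟩ := List.mem_map.1 hx
          obtain ⟨q, -, hq⟩ := List.mem_map.1 hy
          simp [be, bt] at hq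
      · intro p hp
        rw [List.mem_append] at hp
        rcases hp with hp | hp
        · obtain ⟨e, he, rfl⟩ := List.mem_map.1 hp
          rw [List.mem_filter] at he
          refine ⟨mem_blues.2 ⟨⟨hbs 0 (by omega), hbe 0 (by omega) e he.1⟩, Or.inl ?_⟩, ?_⟩
          · simp [bs, be]
          · simpa [hgs 0 (by omega)] using he.2
        · obtain ⟨q, hq, rfl⟩ := List.mem_map.1 hp
          rw [mem_prs] at hq
          refine ⟨mem_blues.2 ⟨⟨hbs q.1 (by omega), hbt q.2 (by omega)⟩, Or.inr ?_⟩, ?_⟩
          · simp only [bs, bt, true_and]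
            exact hq
          · simp [hgs q.1 (by omega), hgt q.2 (by omega)]

theorem hard : HardI (fun I => (I.1.2.map Prod.fst).Nodup ∧ RedBlueCut I) ∧ HardI RedBlueCut := by
  have h1 : HardPr (fun I : (List ℕ × List Arc) × ℕ × ℕ => (I.1.2.map Prod.fst).Nodup) RedBlueCut := by
    refine hardPr_CLIQUE.trans poly_red ?_ ?_
    · intro I hI
      exact (redBlueCut_relabel (svs I) (arcs I) (kk I) I.1.2.length (index (svs I))
        (svs_nodup hI.1) (fun x hx y hy hxy => index_inj hx hy hxy) arcs_mem (arcs_nodup hI.1)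
        arcs_par).1.1
    · intro I hI
      exact corr hI.1 hI.2
  exact ⟨X249.HardPr.and_hardI h1, h1.toHardI⟩

end Pool.Agent.X249.RB
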