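import Pool.Agent.X249.Kit

/-!
# Red-blue cuts in directed graphs: the decision problem
-/

set_option autoImplicit false

namespace Pool.Agent.X249.RB

open Pool.Agent.NPC

/-- A coloured arc: its tail, its head, and its colour (`true` is red, `false` is blue). -/
abbrev Arc : Type := (ℕ × ℕ) × Bool

/-- `V` lists the vertices of a digraph without loops, each once, and all ends of the arcs in the
list `A` are vertices. (An arc may occur several times in the list.) -/
def IsDigraph (V : List ℕ) (A : List Arc) : Prop :=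
  V.Nodup ∧ ∀ a ∈ A, a.1.1 ∈ V ∧ a.1.2 ∈ V ∧ a.1.1 ≠ a.1.2

/-- The number of arcs of colour `c` which leave the set `X` (tail in `X`, head outside `X`). -/
def outCount (A : List Arc) (c : Bool) (X : Finset ℕ) : ℕ :=
  A.countP (fun a => decide (a.1.1 ∈ X ∧ a.1.2 ∉ X ∧ a.2 = c))

/-- The directed red-blue cut problem. The instance `((V, A), r, b)` consists of a digraph with red
and blue arcs and of two bounds; the question is whether there is a nonempty proper subset `X` of
the vertex set such that at most `r` red and at most `b` blue arcs leave `X`. -/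
def RedBlueCut (I : (List ℕ × List Arc) × ℕ × ℕ) : Prop :=
  IsDigraph I.1.1 I.1.2 ∧ ∃ X : Finset ℕ, X.Nonempty ∧ X ⊂ I.1.1.toFinset ∧
    outCount I.1.2 true X ≤ I.2.1 ∧ outCount I.1.2 false X ≤ I.2.2

/-- The same problem for digraphs without parallel arcs. -/
def SimpleRedBlueCut (I : (List ℕ × List Arc) × ℕ × ℕ) : Prop :=
  (I.1.2.map Prod.fst).Nodup ∧ RedBlueCut I

/-! ### Membership in NP -/

/-- The verified relation; the certificate lists the elements of `X`. -/
def Rel (I : (List ℕ × List Arc) × ℕ × ℕ) (w : List ℕ) : Prop :=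
  (I.1.1.Nodup ∧ ∀ a ∈ I.1.2, a.1.1 ∈ I.1.1 ∧ a.1.2 ∈ I.1.1 ∧ a.1.1 ≠ a.1.2) ∧
  (∀ x ∈ w, x ∈ I.1.1) ∧ (∃ x ∈ I.1.1, x ∈ w) ∧ (∃ x ∈ I.1.1, x ∉ w) ∧
  (I.1.2.filter (fun a => decide (a.1.1 ∈ w ∧ a.1.2 ∉ w ∧ a.2 = true))).length ≤ I.2.1 ∧
  (I.1.2.filter (fun a => decide (a.1.1 ∈ w ∧ a.1.2 ∉ w ∧ a.2 = false))).length ≤ I.2.2

theorem poly_rel : Poly (fun x : ((List ℕ × List Arc) × ℕ × ℕ) × List ℕ =>
    @decide (Rel x.1 x.2) (Classical.propDecidable _)) := by
  unfold Rel
  fun_prop

theorem poly_rel' : Poly (fun x : ((List ℕ × List Arc) × ℕ × ℕ) × List ℕ =>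
    @decide ((x.1.1.2.map Prod.fst).Nodup ∧ Rel x.1 x.2) (Classical.propDecidable _)) := by
  have h := poly_rel
  fun_prop

theorem redBlueCut_iff (I : (List ℕ × List Arc) × ℕ × ℕ) :
    RedBlueCut I ↔ ∃ w, sz w ≤ (Polynomial.X : Polynomial ℕ).eval (sz I) ∧ Rel I w := by
  constructor
  · rintro ⟨hd, X, hne, hss, hr, hb⟩
    refine ⟨I.1.1.filter (fun x => decide (x ∈ X)), ?_, hd, ?_, ?_, ?_, ?_, ?_⟩
    · rw [Polynomial.eval_X]
      obtain ⟨⟨V, A⟩, r, b⟩ := I
      have := sz_filter_le (fun x => decide (x ∈ X)) V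
      simp only [sz_pair]
      omega
    · intro x hx
      exact (List.mem_filter.1 hx).1
    · obtain ⟨x, hx⟩ := hne
      have hxV : x ∈ I.1.1 := List.mem_toFinset.1 (hss.1 hx)
      exact ⟨x, hxV, List.mem_filter.2 ⟨hxV, by simpa using hx⟩⟩
    · obtain ⟨x, hxV, hx⟩ := Finset.exists_of_ssubset hss
      refine ⟨x, List.mem_toFinset.1 hxV, fun h => hx ?_⟩
      simpa using (List.mem_filter.1 h).2
    · refine le_trans (le_of_eq ?_) hr
      rw [outCount, ← List.countP_eq_length_filter]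
      apply List.countP_congr
      intro a ha
      have h1 := (hd.2 a ha).1
      have h2 := (hd.2 a ha).2.1
      simp [h1, h2]
    · refine le_trans (le_of_eq ?_) hb
      rw [outCount, ← List.countP_eq_length_filter]
      apply List.countP_congr
      intro a ha
      have h1 := (hd.2 a ha).1
      have h2 := (hd.2 a ha).2.1
      simp [h1, h2]
  · rintro ⟨w, -, hd, hw, ⟨x, hxV, hxw⟩, ⟨y, hyV, hyw⟩, hr, hb⟩
    refine ⟨hd, w.toFinset, ⟨x, List.mem_toFinset.2 hxw⟩, ?_, ?_, ?_⟩
    · refine (Finset.ssubset_iff_of_subset ?_).2 ⟨y, List.mem_toFinset.2 hyV, ?_⟩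
      · intro z hz
        exact List.mem_toFinset.2 (hw z (List.mem_toFinset.1 hz))
      · simpa using hyw
    · rw [outCount, List.countP_eq_length_filter]
      simpa using hr
    · rw [outCount, List.countP_eq_length_filter]
      simpa using hb

theorem inNP_redBlueCut : InNPP RedBlueCut :=
  inNPP_rel poly_rel Polynomial.X redBlueCut_iff

theorem inNP_simpleRedBlueCut : InNPP SimpleRedBlueCut :=
  inNPP_rel (R := fun I w => (I.1.2.map Prod.fst).Nodup ∧ Rel I w) poly_rel' Polynomial.X fun I => by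
    rw [SimpleRedBlueCut, redBlueCut_iff]
    constructor
    · rintro ⟨h, w, hw, hR⟩
      exact ⟨w, hw, h, hR⟩
    · rintro ⟨w, hw, h, hR⟩
      exact ⟨h, w, hw, hR⟩

/-! ### Structured vertices -/

/-- Relabelling the vertices of a structured instance by their positions. -/
theorem redBlueCut_relabel {β : Type} (V : List β) (A : List ((β × β) × Bool)) (r b : ℕ)
    (f : β → ℕ) (hV : V.Nodup) (hf : ∀ x ∈ V, ∀ y ∈ V, f x = f y → x = y)
    (hA : ∀ a ∈ A, a.1.1 ∈ V ∧ a.1.2 ∈ V ∧ a.1.1 ≠ a.1.2) (hA' : A.Nodup)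
    (hpar : ∀ a ∈ A, ∀ a' ∈ A, a.1 = a'.1 → a = a') :
    let I := ((V.map f, A.map (fun a => ((f a.1.1, f a.1.2), a.2))), r, b)
    ((I.1.2.map Prod.fst).Nodup ∧ IsDigraph I.1.1 I.1.2) ∧
    (RedBlueCut I ↔ ∃ g : β → Bool, (∃ x ∈ V, g x = true) ∧ (∃ x ∈ V, g x = false) ∧
      A.countP (fun a => g a.1.1 && (!g a.1.2 && a.2)) ≤ r ∧
      A.countP (fun a => g a.1.1 && (!g a.1.2 && !a.2)) ≤ b) := by
  intro I
  have hD : IsDigraph I.1.1 I.1.2 := by
    refine ⟨hV.map_on hf, ?_⟩
    intro a ha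
    obtain ⟨a', ha', rfl⟩ := List.mem_map.1 ha
    obtain ⟨h1, h2, h3⟩ := hA a' ha'
    exact ⟨List.mem_map_of_mem h1, List.mem_map_of_mem h2, fun h => h3 (hf _ h1 _ h2 h)⟩
  refine ⟨⟨?_, hD⟩, ?_⟩
  · rw [List.map_map]
    refine hA'.map_on ?_
    intro a ha a' ha' h
    simp only [Function.comp, Prod.mk.injEq] at h
    obtain ⟨h1, h2, -⟩ := hA a ha
    obtain ⟨h3, h4, -⟩ := hA a' ha'
    exact hpar a ha a' ha' (Prod.ext (hf _ h1 _ h3 h.1) (hf _ h2 _ h4 h.2))
  · constructor
    · rintro ⟨-, X, hne, hss, hr, hb⟩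
      refine ⟨fun x => decide (f x ∈ X), ?_, ?_, ?_, ?_⟩
      · obtain ⟨x, hx⟩ := hne
        obtain ⟨y, hy, rfl⟩ := List.mem_map.1 (List.mem_toFinset.1 (hss.1 hx))
        exact ⟨y, hy, by simpa using hx⟩
      · obtain ⟨x, hxV, hx⟩ := Finset.exists_of_ssubset hss
        obtain ⟨y, hy, rfl⟩ := List.mem_map.1 (List.mem_toFinset.1 hxV)
        exact ⟨y, hy, by simpa using hx⟩
      · refine le_trans (le_of_eq ?_) hr
        simp only [outCount, I, List.countP_map]
        apply List.countP_congr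
        intro a _
        simp
      · refine le_trans (le_of_eq ?_) hb
        simp only [outCount, I, List.countP_map]
        apply List.countP_congr
        intro a _
        simp
    · rintro ⟨g, ⟨x, hxV, hx⟩, ⟨y, hyV, hy⟩, hr, hb⟩
      have key : ∀ z ∈ V, (f z ∈ ((V.filter g).map f).toFinset ↔ g z = true) := by
        intro z hz
        rw [List.mem_toFinset, List.mem_map]
        constructor
        · rintro ⟨u, hu, huz⟩
          rw [List.mem_filter] at hu
          rw [← hf u hu.1 z hz huz]; exact hu.2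
        · intro h
          exact ⟨z, List.mem_filter.2 ⟨hz, h⟩, rfl⟩
      refine ⟨hD, ((V.filter g).map f).toFinset, ?_, ?_, ?_, ?_⟩
      · exact ⟨f x, (key x hxV).2 hx⟩
      · refine (Finset.ssubset_iff_of_subset ?_).2 ⟨f y,
          List.mem_toFinset.2 (List.mem_map_of_mem hyV), ?_⟩
        · intro z hz
          rw [List.mem_toFinset, List.mem_map] at hz
          obtain ⟨u, hu, rfl⟩ := hz
          exact List.mem_toFinset.2 (List.mem_map_of_mem (List.mem_filter.1 hu).1)
        · rw [key y hyV, hy]; simp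
      · refine le_trans (le_of_eq ?_) hr
        simp only [outCount, I, List.countP_map]
        apply List.countP_congr
        intro a ha
        obtain ⟨h1, h2, -⟩ := hA a ha
        simp only [Function.comp, decide_eq_true_eq, Bool.and_eq_true, Bool.not_eq_true',
          key _ h1, key _ h2, Bool.not_eq_true]
      · refine le_trans (le_of_eq ?_) hb
        simp only [outCount, I, List.countP_map]
        apply List.countP_congr
        intro a ha
        obtain ⟨h1, h2, -⟩ := hA a ha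
        simp only [Function.comp, decide_eq_true_eq, Bool.and_eq_true, Bool.not_eq_true',
          key _ h1, key _ h2, Bool.not_eq_true]

end Pool.Agent.X249.RB
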