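import Pool.Agent.X249.RB.Defs
import Pool.Agent.H634R2.Clique

/-!
# Red-blue cuts in directed graphs: the reduction from CLIQUE
-/

set_option autoImplicit false

namespace Pool.Agent.X249.RB

open Pool.Agent.NPC Pool.Agent.NPC.H634R2

/-- The name of a block of vertices. -/
abbrev Bs : Type := ℕ × (ℕ × ℕ)

/-- A structured vertex: the name of its block, and its number in the block. -/
abbrev SV : Type := Bs × ℕ

def bs : Bs := (0, (0, 0))
def bt : Bs := (1, (0, 0))
def bv (v : ℕ) : Bs := (2, (v, v))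
def be (e : ℕ × ℕ) : Bs := (3, e)

abbrev CInst : Type := (List ℕ × List (ℕ × ℕ)) × ℕ

def bases (I : CInst) : List Bs := bs :: bt :: (I.1.1.map bv ++ I.1.2.map be)

def kk (I : CInst) : ℕ := min I.2 (I.1.1.length + 2)

def copies (I : CInst) : List ℕ := List.range (I.1.1.length + 4)

def svs (I : CInst) : List SV := (bases I) ×ˢ (copies I)

/-- Heavy connections. -/
def heavy (x y : Bs) : Prop :=
  x = y ∨ y.1 = 0 ∨ x.1 = 1 ∨ (x.1 = 3 ∧ y.1 = 2 ∧ (y.2.1 = x.2.1 ∨ y.2.1 = x.2.2))

instance (x y : Bs) : Decidable (heavy x y) := by unfold heavy; infer_instance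

def redP (p : SV × SV) : Prop :=
  (heavy p.1.1 p.2.1 ∧ p.1 ≠ p.2) ∨ (p.1.2 = 0 ∧ p.2.2 = 0 ∧ p.1.1.1 = 2 ∧ p.2.1.1 = 1)

instance (p : SV × SV) : Decidable (redP p) := by unfold redP; infer_instance

def blueP (k : ℕ) (p : SV × SV) : Prop :=
  (p.1.2 = 0 ∧ p.2.2 = 0 ∧ p.1.1.1 = 0 ∧ p.2.1.1 = 3) ∨
    (p.1.1.1 = 0 ∧ p.2.1.1 = 1 ∧ p.1.2 < p.2.2 ∧ p.2.2 < k)

instance (k : ℕ) (p : SV × SV) : Decidable (blueP k p) := by unfold blueP; infer_instance

def reds (I : CInst) : List (SV × SV) := ((svs I) ×ˢ (svs I)).filter (fun p => decide (redP p))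

def blues (I : CInst) : List (SV × SV) :=
  ((svs I) ×ˢ (svs I)).filter (fun p => decide (blueP (kk I) p))

def arcs (I : CInst) : List ((SV × SV) × Bool) :=
  (reds I).map (fun p => (p, true)) ++ (blues I).map (fun p => (p, false))

noncomputable def red (I : CInst) : (List ℕ × List Arc) × ℕ × ℕ :=
  (((svs I).map (fun x => index (svs I) x),
    (arcs I).map (fun a => ((index (svs I) a.1.1, index (svs I) a.1.2), a.2))),
    kk I, I.1.2.length)

/-! ### Polynomial time -/

section
variable {α : Type} [TEnc α]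

@[fun_prop]
theorem poly_bases {f : α → CInst} (hf : Poly f) : Poly (fun a => bases (f a)) := by
  unfold bases bs bt bv be
  fun_prop

@[fun_prop]
theorem poly_kk {f : α → CInst} (hf : Poly f) : Poly (fun a => kk (f a)) := by
  unfold kk
  fun_prop

@[fun_prop]
theorem poly_copies {f : α → CInst} (hf : Poly f) : Poly (fun a => copies (f a)) := by
  unfold copies
  exact UPoly.range (UPoly.add (UPoly.length (Poly.fst (Poly.fst hf))) (UPoly.const 4))

@[fun_prop]
theorem poly_svs {f : α → CInst} (hf : Poly f) : Poly (fun a => svs (f a)) := by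
  unfold svs
  fun_prop

@[fun_prop]
theorem poly_reds {f : α → CInst} (hf : Poly f) : Poly (fun a => reds (f a)) := by
  unfold reds redP heavy
  fun_prop

@[fun_prop]
theorem poly_blues {f : α → CInst} (hf : Poly f) : Poly (fun a => blues (f a)) := by
  unfold blues blueP
  fun_prop

@[fun_prop]
theorem poly_arcs {f : α → CInst} (hf : Poly f) : Poly (fun a => arcs (f a)) := by
  unfold arcs
  fun_prop

attribute [fun_prop] Poly.index

theorem poly_red : Poly red := by
  unfold red
  fun_prop

end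

end Pool.Agent.X249.RB
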